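import Pool.Agent.helper748_tw.Main
import Pool.Agent.helper748_mc.BinThm

set_option autoImplicit false

/-! # The twisted topological zeta functions of the forms `h x₂ ^ j (a x₂ ^ k + b) ^ n`

The twisted topological zeta function `Z^(e)` of a form `f` of degree `d` in three variables is
computed from the curve `f = 0` in the projective plane by blowing up points, see `TwCone`,
`TwPlane` and `TwLocal` (in `Pool.Agent.helper748_tw.Defs`). It is zero if `e` does not divide
`d`. All poles except possibly `-3/d` are roots of `b_f`, by the twisted version of the theorem
for plane curves, so that the question is whether `b_f(-3/d) = 0`. We prove it if `f` is in some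
linear coordinates of the form `h x₂ ^ j (a x₂ ^ k + b) ^ n`, with `h`, `a`, `b` in `x₀`, `x₁`,
such that `h a b` has enough roots, counted as in `BinomialForm`.

By the theorem of Malgrange and Kashiwara, `exp(2 π i s₀)` is a monodromy eigenvalue of `f` for
every root `s₀` of `b_f`.

The proof:

* `local_tw`, `plane_tw`: if `b(s₀) ≠ 0`, then the residues at `s₀` of the contributions of the
  points of every exceptional curve `E` with `N_E s₀ + ν_E = 0` and `e ∣ N_E` cancel, because at most
  two points of `E` count, and `e` divides both or none of the multiplicities there;
* `ex_main`: a functional equation gives an identity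
  `b(c) g ^ (K + 1) = ∑ (g ∂_i v_i(c) + (c - K) (∂_i g) v_i(c))` with forms `v_i(c)` of the degree
  `d K + 1` which depend polynomially on `c`; so `b(c) g ^ c` is the divergence of `v(c) g ^ (c - K)`;
* `exact_two`: for `c = -3/d` this gives such an identity in the two variables `x₀`, `x₂`;
* `exists_betaSys`, `Fn`, `Fn_exact`: for `x₀ = t`, `x₁ = 1` the integrals of `x₂ ^ m g ^ (-3/d)`
  over `x₂` are beta integrals; as `θ` and `μ` are not integers, they can be defined by analytic
  continuation, and they vanish on derivatives with respect to `x₂`;
* `gP_deriv`, `gP_poly`, `bin_eq`: their derivatives with respect to `t`; this gives a differential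
  equation of the first order with a solution `κ / (h a b) ^ M`, `κ` a polynomial;
* `ord_ode`: the order of the solution at each root of `h a b`; `ode_count`: the sum of these orders
  would be greater than the degree of `κ`. (So the integral of `g ^ (-3/d) Ω` over the lines through
  `(0 : 0 : 1)` is a form `∏ (t - t_i) ^ e_i dt` which is not exact.) -/

namespace Pool.Agent.Results.MP_b22d1f_ag.BinomialTwisted

open MvPolynomial Pool.Agent.W574.CN Pool.Agent.W574.MO Pool.Agent.W574.HS Pool.Agent.W574.SM
  Pool.Agent.H628R4.TP Pool.Agent.Helper748.MC Pool.Agent.Helper748.TZ

/-- Let `f` be a form of degree `d` in three variables with `BinomialForm d f`, let `b` be a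
polynomial which satisfies a global or local functional equation `b(s) f ^ s = P(s) f ^ (s + 1)`
(in particular the Bernstein-Sato polynomial of `f`), and let `Z` be the twisted topological zeta
function `Z^(e)` of `f`, for any `e`. Then every pole `s₀` of `Z` is a root of `b`. -/
theorem result (f : MvPolynomial (Fin 3) ℂ) (d : ℕ) (hf : f.IsHomogeneous d)
    (h : BinomialForm d f) (b : Polynomial ℂ)
    (hb : IsBFunction f b ∨ IsLocalBFunction f b) (e : ℕ) (Z : RatFunc ℂ) (hZ : TwCone e f d Z)
    (s₀ : ℂ) (hs₀ : Z.denom.eval s₀ = 0) : b.eval s₀ = 0 := by
  have hb' := global_of f (not_exact_bin hf h).1 d hf b hb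
  exact cone_tw e f d h.pos hf b (funEq_unit f b hb') (bin_single f d hf h b hb') Z hZ s₀ hs₀

end Pool.Agent.Results.MP_b22d1f_ag.BinomialTwisted
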