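import Pool.Agent.helper748_tw.Main
import Pool.Agent.helper748_mc.QuadThm

set_option autoImplicit false

/-! # The twisted topological zeta functions of ternary forms with a point of multiplicity `d - 1`

The twisted topological zeta function `Z^(e)` of a form `f` of degree `d` in three variables is
computed from the curve `f = 0` in the projective plane by blowing up points, see `TwCone`,
`TwPlane` and `TwLocal` (in `Pool.Agent.helper748_tw.Defs`). It is zero if `e` does not divide
`d`. All poles except possibly `-3/d` are roots of `b_f`, by the twisted version of the theorem
for plane curves, so that the question is whether `b_f(-3/d) = 0`. We prove it if the curve `f =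
0` has a point of multiplicity `d - 1`, and some line which is a simple factor of the tangent cone
at this point is not a component of the curve.

By the theorem of Malgrange and Kashiwara, `exp(2 π i s₀)` is a monodromy eigenvalue of `f` for
every root `s₀` of `b_f`.

The proof:

* `local_tw`, `plane_tw`: if `b(s₀) ≠ 0`, then the residues at `s₀` of the contributions of the
  points of every exceptional curve `E` with `N_E s₀ + ν_E = 0` and `e ∣ N_E` cancel, because at most
  two points of `E` count, and `e` divides both or none of the multiplicities there;
* `ex_main`: a functional equation gives an identity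
  `b(c) g ^ (K + 1) = ∑ (g ∂_i v_i(c) + (c - K) (∂_i g) v_i(c))` with forms `v_i(c)` of the degree
  `d K + 1` which depend polynomially on `c`; so `b(c) g ^ c` is the divergence of `v(c) g ^ (c - K)`;
* `exact_two`: for `c = -3/d` this gives such an identity in the two variables `x₀`, `x₂`;
* `exists_primz`, `fibre_eq`: as `g = x₂ A + B` has the degree `1` in `x₂`, and as `3/d` is not an
  integer, one can integrate uniquely over `x₂`, at the cost of powers of `A` in the denominator;
* `order_contra`: this gives a differential equation in one variable for the value of the integral
  at `x₂ = 0`, and a comparison of the orders of the poles at a simple zero of `A` at which `B` does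
  not vanish gives a contradiction. -/

namespace Pool.Agent.Results.MP_b22d1f_ag.LargeMultiplicityTwisted

open MvPolynomial Pool.Agent.W574.CN Pool.Agent.W574.MO Pool.Agent.W574.HS Pool.Agent.W574.SM
  Pool.Agent.H628R4.TP Pool.Agent.Helper748.MC Pool.Agent.Helper748.TZ

/-- Let `f` be a form of degree `d > 0` in three variables which is, in some linear coordinates, of
the form `x₀ x₂ a(x₀, x₁) + b(x₀, x₁)` with `a(0, 1) ≠ 0` and `b(0, 1) ≠ 0` (so that the curve `f
= 0` has a point of multiplicity `d - 1`), let `b` be a polynomial which satisfies a global or
local functional equation `b(s) f ^ s = P(s) f ^ (s + 1)` (in particular the Bernstein-Sato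
polynomial of `f`), and let `Z` be the twisted topological zeta function `Z^(e)` of `f`, for any
`e`. Then every pole `s₀` of `Z` is a root of `b`. -/
theorem result (f : MvPolynomial (Fin 3) ℂ) (d : ℕ) (hd : 0 < d) (hf : f.IsHomogeneous d)
    (h : FanForm f) (b : Polynomial ℂ)
    (hb : IsBFunction f b ∨ IsLocalBFunction f b) (e : ℕ) (Z : RatFunc ℂ) (hZ : TwCone e f d Z)
    (s₀ : ℂ) (hs₀ : Z.denom.eval s₀ = 0) : b.eval s₀ = 0 := by
  have hb' := global_of f h.ne_zero d hf b hb
  exact cone_tw e f d hd hf b (funEq_unit f b hb') (fan_single f d hd hf h b hb') Z hZ s₀ hs₀

end Pool.Agent.Results.MP_b22d1f_ag.LargeMultiplicityTwisted
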