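import Pool.Agent.helper748_tw.Main
import Pool.Agent.helper748_mc.QuadThm

set_option autoImplicit false

/-! # The twisted topological zeta functions of ternary forms with a point of multiplicity `d - 2`

The twisted topological zeta function `Z^(e)` of a form `f` of degree `d` in three variables is
computed from the curve `f = 0` in the projective plane by blowing up points, see `TwCone`,
`TwPlane` and `TwLocal` (in `Pool.Agent.helper748_tw.Defs`). It is zero if `e` does not divide
`d`. All poles except possibly `-3/d` are roots of `b_f`, by the twisted version of the theorem
for plane curves, so that the question is whether `b_f(-3/d) = 0`. We prove it if `d` is not a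
divisor of `6`, the curve `f = 0` has a point of multiplicity `d - 2`, and the double covering of
the projective line which is given by the lines through this point has enough special fibres,
counted as in `QuadForm`.

By the theorem of Malgrange and Kashiwara, `exp(2 π i s₀)` is a monodromy eigenvalue of `f` for
every root `s₀` of `b_f`.

The proof:

* `local_tw`, `plane_tw`: if `b(s₀) ≠ 0`, then the residues at `s₀` of the contributions of the
  points of every exceptional curve `E` with `N_E s₀ + ν_E = 0` and `e ∣ N_E` cancel, because at most
  two points of `E` count, and `e` divides both or none of the multiplicities there;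
* `ex_main`: a functional equation gives an identity
  `b(c) g ^ (K + 1) = ∑ (g ∂_i v_i(c) + (c - K) (∂_i g) v_i(c))` with forms `v_i(c)` of the degree
  `d K + 1` which depend polynomially on `c`; so `b(c) g ^ c` is the divergence of `v(c) g ^ (c - K)`;
* `exact_two`: for `c = -3/d` this gives such an identity in the two variables `x₀`, `x₂`;
* `exists_red`, `chain`, `red_G0`, `quad_eq`: as `g = A x₂ ^ 2 + B x₂ + C` has the degree `2` in
  `x₂`, and as `6/d` is not an integer, one can reduce modulo derivatives with respect to `x₂`, at
  the cost of powers of `A`, to polynomials in `x₀`, `x₁`; this gives a differential equation of the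
  first order in the variable `x₀`, with the discriminant `D = B ^ 2 - 4 A C`;
* `ord_at`: the order of its solution at each root of `A D`; `quad_count`: the sum of these orders
  would be greater than the degree of the solution. -/

namespace Pool.Agent.Results.MP_b22d1f_ag.MultiplicityMinusTwoTwisted

open MvPolynomial Pool.Agent.W574.CN Pool.Agent.W574.MO Pool.Agent.W574.HS Pool.Agent.W574.SM
  Pool.Agent.H628R4.TP Pool.Agent.Helper748.MC Pool.Agent.Helper748.TZ

/-- Let `f` be a form of degree `d`, `d` not a divisor of `6`, in three variables with `QuadForm d f`
(so that the curve `f = 0` has a point of multiplicity `d - 2`), let `b` be a polynomial which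
satisfies a global or local functional equation `b(s) f ^ s = P(s) f ^ (s + 1)` (in particular the
Bernstein-Sato polynomial of `f`), and let `Z` be the twisted topological zeta function `Z^(e)` of
`f`, for any `e`. Then every pole `s₀` of `Z` is a root of `b`. -/
theorem result (f : MvPolynomial (Fin 3) ℂ) (d : ℕ) (hd : ¬ d ∣ 6) (hf : f.IsHomogeneous d)
    (h : QuadForm d f) (b : Polynomial ℂ)
    (hb : IsBFunction f b ∨ IsLocalBFunction f b) (e : ℕ) (Z : RatFunc ℂ) (hZ : TwCone e f d Z)
    (s₀ : ℂ) (hs₀ : Z.denom.eval s₀ = 0) : b.eval s₀ = 0 := by
  have hb' := global_of f (not_exact_quad hd hf h).1 d hf b hb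
  exact cone_tw e f d h.pos hf b (funEq_unit f b hb') (quad_single f d hd hf h b hb') Z hZ s₀ hs₀

end Pool.Agent.Results.MP_b22d1f_ag.MultiplicityMinusTwoTwisted
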