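import Pool.Agent.helper748_tw.Main
import Pool.Agent.helper748_mc.QuadThm

set_option autoImplicit false

/-! # The twisted topological zeta functions of strictly semistable ternary forms

The twisted topological zeta function `Z^(e)` of a form `f` of degree `d` in three variables is
computed from the curve `f = 0` in the projective plane by blowing up points, see `TwCone`,
`TwPlane` and `TwLocal` (in `Pool.Agent.helper748_tw.Defs`). It is zero if `e` does not divide
`d`. All poles except possibly `-3/d` are roots of `b_f`, by the twisted version of the theorem
for plane curves, so that the question is whether `b_f(-3/d) = 0`. We prove it if `f` is strictly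
semistable (or satisfies `BoundaryForm`).

By the theorem of Malgrange and Kashiwara, `exp(2 π i s₀)` is a monodromy eigenvalue of `f` for
every root `s₀` of `b_f`.

The proof:

* `local_tw`, `plane_tw`: if `b(s₀) ≠ 0`, then the residues at `s₀` of the contributions of the
  points of every exceptional curve `E` with `N_E s₀ + ν_E = 0` and `e ∣ N_E` cancel, because at most
  two points of `E` count, and `e` divides both or none of the multiplicities there;
* `ex_main`: a functional equation gives an identity
  `b(c) g ^ (K + 1) = ∑ (g ∂_i v_i(c) + (c - K) (∂_i g) v_i(c))` with forms `v_i(c)` of the degree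
  `d K + 1` which depend polynomially on `c`; so `b(c) g ^ c` is the divergence of `v(c) g ^ (c - K)`;
* `exact_initial`: if `g ^ s` is such a divergence, and all monomials of `g` have a weight `≥ 0`
  for a weight `w` with the sum `0`, then the same holds for the part of the weight `0` of `g`;
* `log_eq`, `uni_main`: if moreover the barycenter lies in the convex hull of the monomials of the
  weight `0`, one gets a differential equation in one variable which has no solution for
  `s = -3/d`;
* `exists_face`: for strictly semistable forms there are linear coordinates in which this
  applies. -/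

namespace Pool.Agent.Results.MP_b22d1f_ag.StrictlySemistableTwisted

open MvPolynomial Pool.Agent.W574.CN Pool.Agent.W574.MO Pool.Agent.W574.HS Pool.Agent.W574.SM
  Pool.Agent.H628R4.TP Pool.Agent.Helper748.MC Pool.Agent.Helper748.TZ

/-- Let `f` be a form of degree `d > 0` in three variables which is strictly semistable (or satisfies
`BoundaryForm`), let `b` be a polynomial which satisfies a global or local functional equation
`b(s) f ^ s = P(s) f ^ (s + 1)` (in particular the Bernstein-Sato polynomial of `f`), and let `Z`
be the twisted topological zeta function `Z^(e)` of `f`, for any `e`. Then every pole `s₀` of `Z`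
is a root of `b`. -/
theorem result (f : MvPolynomial (Fin 3) ℂ) (d : ℕ) (hd : 0 < d) (hf : f.IsHomogeneous d)
    (h : StrictlySemistable f ∨ BoundaryForm d f) (b : Polynomial ℂ)
    (hb : IsBFunction f b ∨ IsLocalBFunction f b) (e : ℕ) (Z : RatFunc ℂ) (hZ : TwCone e f d Z)
    (s₀ : ℂ) (hs₀ : Z.denom.eval s₀ = 0) : b.eval s₀ = 0 := by
  obtain ⟨hf0, hE⟩ := not_exact_of hd hf h
  have hb' := global_of f hf0 d hf b hb
  have hr : b.eval (-3 / d : ℂ) = 0 :=
    root_of_not_exact (fun _ : Unit => f) d hd (fun _ => hf) b (funEq_unit f b hb')
      (fun _ => 1) (by rw [lcomb_unit]; exact hf0) (by rw [lcomb_unit]; exact hE)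
  exact cone_tw e f d hd hf b (funEq_unit f b hb') hr Z hZ s₀ hs₀

end Pool.Agent.Results.MP_b22d1f_ag.StrictlySemistableTwisted
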